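import Mathlib

/-!
# MP_5c307f_lc: flarbs can cost `Ω(log n)` amortized pointer changes

For every `n ≥ 64` there is a sequence of `n` flarbs, starting from the empty tree, with at least
`n log n / 8` pointer changes in total.
-/

namespace Pool.Agent.Results.MP_5c307f_lc.LogLowerBound

open Finset

/-- Finite binary trees whose nodes carry names (natural numbers). -/
inductive BT : Type
  | nil : BT
  | node (l : BT) (x : ℕ) (r : BT) : BT

namespace BT

/-- The name of the root, if there is one. -/
def root : BT → Option ℕ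
  | nil => none
  | node _ x _ => some x

/-- The set of parent/left-child pairs. -/
def lefts : BT → Finset (ℕ × ℕ)
  | nil => ∅
  | node l x r => (l.root.toFinset.image fun y => (x, y)) ∪ (lefts l ∪ lefts r)

/-- The set of parent/right-child pairs. -/
def rights : BT → Finset (ℕ × ℕ)
  | nil => ∅
  | node l x r => (r.root.toFinset.image fun y => (x, y)) ∪ (rights l ∪ rights r)

end BT

open BT

/-- `Split T L t`: there is a connected set `S` of nodes of `T` that is empty or contains the root
of `T`, such that, if `x₁, …, x_k` are the nodes of `S` in in-order and `A_i` is the subtree of `T`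
hanging off `S` immediately before `x_i` in in-order (between `x_(i-1)` and `x_i`), then
`L = [(A₁, x₁), …, (A_k, x_k)]`, and `t` is the subtree hanging off `S` after `x_k` (`t = T` if `S`
is empty).  Constructor `skip`: `S` is empty.  Constructor `take`: the root is in `S`, and `S`
continues with two such sets in the left and in the right subtree. -/
inductive Split : BT → List (BT × ℕ) → BT → Prop
  | skip (T : BT) : Split T [] T
  | take {l r : BT} {x : ℕ} {L₁ L₂ : List (BT × ℕ)} {t₁ t₂ : BT}
      (h₁ : Split l L₁ t₁) (h₂ : Split r L₂ t₂) :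
      Split (node l x r) (L₁ ++ (t₁, x) :: L₂) t₂

/-- The rightmost path with nodes `x₁, …, x_k` (from the root downwards), where `x_i` has left
subtree `A_i`, and the last node has right subtree `t`; here `L = [(A₁, x₁), …, (A_k, x_k)]`. -/
def graft (L : List (BT × ℕ)) (t : BT) : BT := L.foldr (fun p s => node p.1 p.2 s) t

/-- `T'` is the flarb of some anchored subtree of `T`, the new node having the name `n`: the new
root `n` gets `T` as its left subtree, and then the nodes of the anchored subtree together with `n`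
form a rightmost path, the in-order and the hanging subtrees being unchanged.  The anchored subtree
contains the root of `T`, so it is nonempty unless `T` is empty. -/
def IsFlarb (n : ℕ) (T T' : BT) : Prop :=
  ∃ (L : List (BT × ℕ)) (t : BT), Split T L t ∧ (T ≠ nil → L ≠ []) ∧
    T' = graft L (node t n nil)

/-- Number of parent/left-child and parent/right-child relationships that change. -/
def cost (T T' : BT) : ℕ :=
  (symmDiff T.lefts T'.lefts).card + (symmDiff T.rights T'.rights).card

/-! ### Auxiliary notions -/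

/-- A flarb where the selected set may be empty. -/
def Flarb0 (n : ℕ) (T T' : BT) : Prop :=
  ∃ (L : List (BT × ℕ)) (t : BT), Split T L t ∧ T' = graft L (node t n nil)

/-- Number of parent/left-child pairs that disappear. -/
def lcost (T T' : BT) : ℕ := (T.lefts \ T'.lefts).card

lemma lcost_le_cost (T T' : BT) : lcost T T' ≤ cost T T' := by
  unfold lcost cost
  refine le_trans (Finset.card_le_card ?_) (Nat.le_add_right _ _)
  intro x hx
  rw [Finset.mem_symmDiff]
  rw [Finset.mem_sdiff] at hx
  exact Or.inl hx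

/-- Right path. -/
def path (l : List ℕ) : BT := graft (l.map fun x => (nil, x)) nil

@[simp] lemma graft_nil (t : BT) : graft [] t = t := rfl

@[simp] lemma graft_cons (p : BT × ℕ) (L : List (BT × ℕ)) (t : BT) :
    graft (p :: L) t = node p.1 p.2 (graft L t) := rfl

lemma graft_append (L M : List (BT × ℕ)) (t : BT) : graft (L ++ M) t = graft L (graft M t) := by
  unfold graft; rw [List.foldr_append]

/-- Smallest possible parent in a left pair: all parents are at least `b`. -/
def ParentsGe (b : ℕ) (T : BT) : Prop := ∀ p ∈ T.lefts, b ≤ p.1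

/-- The left pairs of a graft of leaves. -/
lemma lefts_graft_dead (l : List ℕ) (t : BT) :
    (graft (l.map fun x => (nil, x)) t).lefts = t.lefts := by
  induction l with
  | nil => rfl
  | cons x l ih =>
    simp only [List.map_cons, graft_cons, lefts, ih, BT.root, Option.toFinset_none,
      Finset.image_empty, Finset.empty_union]

lemma lefts_path (l : List ℕ) : (path l).lefts = ∅ := by
  unfold path; rw [lefts_graft_dead]; rfl

/-- The context after `j` children have been cut off node `a + m`. -/
def ctx (a m j : ℕ) : List (BT × ℕ) :=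
  ((List.range' a j).map fun x => (nil, x)) ++ [(path (List.range' (a + j) (m - j)), a + m)]

lemma lefts_ctx (a m j : ℕ) (Y : BT) :
    (graft (ctx a m j) Y).lefts = (if j < m then {(a + m, a + j)} else ∅) ∪ Y.lefts := by
  unfold ctx
  rw [graft_append, lefts_graft_dead]
  simp only [graft_cons, graft_nil, lefts, lefts_path, Finset.empty_union]
  congr 1
  split_ifs with h
  · obtain ⟨q, hq⟩ : ∃ q, m - j = q + 1 := ⟨m - j - 1, by omega⟩
    rw [hq, List.range'_succ]
    simp [path, BT.root]
  · have : m - j = 0 := by omega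
    rw [this]
    simp [path, BT.root]

lemma split_dead (l : List ℕ) {Y : BT} {L : List (BT × ℕ)} {t : BT} (h : Split Y L t) :
    Split (graft (l.map fun x => (nil, x)) Y) ((l.map fun x => (nil, x)) ++ L) t := by
  induction l with
  | nil => simpa using h
  | cons x l ih =>
    simp only [List.map_cons, graft_cons, List.cons_append]
    exact Split.take (L₁ := []) (Split.skip nil) ih

/-- One step in the second phase. -/
lemma split_ctx (a m j : ℕ) (hj : j < m) {Y : BT} {L : List (BT × ℕ)} {t : BT}
    (h : Split Y L t) : Split (graft (ctx a m j) Y) (ctx a m (j + 1) ++ L) t := by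
  obtain ⟨q, hq⟩ : ∃ q, m - j = q + 1 := ⟨m - j - 1, by omega⟩
  have hq' : m - (j + 1) = q := by omega
  have h1 : Split (node (path (List.range' (a + j) (m - j))) (a + m) Y)
      ([(nil, a + j)] ++ (path (List.range' (a + (j + 1)) q), a + m) :: L) t := by
    refine Split.take ?_ h
    rw [hq, List.range'_succ]
    have : path ((a + j) :: List.range' (a + j + 1) q) =
        node nil (a + j) (path (List.range' (a + (j + 1)) q)) := by
      unfold path; rfl
    rw [this]
    exact Split.take (L₁ := []) (L₂ := []) (Split.skip nil) (Split.skip _)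
  have h2 := split_dead (List.range' a j) h1
  unfold ctx
  rw [graft_append, hq', List.range'_concat]
  simpa using h2

/-- The result of the recursive construction: `m` flarbs on the names `a, …, a + m - 1`. -/
def Good (a m c : ℕ) : Prop :=
  ∃ Y : ℕ → BT, Y 0 = nil ∧ Y m = path (List.range' a m) ∧
    (∀ i < m, Flarb0 (a + i) (Y i) (Y (i + 1))) ∧
    (∀ i ≤ m, ParentsGe a (Y i)) ∧ c ≤ ∑ i ∈ range m, lcost (Y i) (Y (i + 1))

lemma good_zero (a : ℕ) : Good a 0 0 := by
  refine ⟨fun _ => nil, rfl, rfl, fun i hi => absurd hi (Nat.not_lt_zero _), fun i _ p hp => ?_,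
    by simp⟩
  simp [lefts] at hp

lemma lcost_ctx (a m j : ℕ) (hj : j < m) (Y Y' : BT) (hY : ParentsGe (a + m + 1) Y)
    (hY' : ParentsGe (a + m + 1) Y') :
    lcost Y Y' + 1 ≤ lcost (graft (ctx a m j) Y) (graft (ctx a m (j + 1)) Y') := by
  unfold lcost
  rw [lefts_ctx, lefts_ctx, if_pos hj]
  have hnot : (a + m, a + j) ∉ Y.lefts \ Y'.lefts := by
    intro h
    have := hY _ (Finset.mem_sdiff.1 h).1
    simp at this
  rw [← Finset.card_insert_of_notMem hnot]
  refine Finset.card_le_card ?_
  intro p hp
  rw [Finset.mem_insert] at hp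
  rw [Finset.mem_sdiff, Finset.mem_union, Finset.mem_union]
  rcases hp with rfl | hp
  · refine ⟨Or.inl (Finset.mem_singleton_self _), ?_⟩
    rintro (h | h)
    · split_ifs at h with h'
      · simp at h
      · simp at h
    · have := hY' _ h
      simp at this
  · rw [Finset.mem_sdiff] at hp
    refine ⟨Or.inr hp.1, ?_⟩
    rintro (h | h)
    · have h1 := hY _ hp.1
      split_ifs at h with h'
      · rw [Finset.mem_singleton] at h
        rw [h] at h1
        simp at h1
      · simp at h
    · exact hp.2 h

lemma good_step (m c : ℕ) (h : ∀ a, Good a m c) (a : ℕ) : Good a (2 * m + 1) (2 * c + m) := by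
  obtain ⟨Y, hY0, hYm, hYs, hYp, hYc⟩ := h a
  obtain ⟨Z, hZ0, hZm, hZs, hZp, hZc⟩ := h (a + m + 1)
  let T : ℕ → BT := fun i => if i ≤ m then Y i else graft (ctx a m (i - m - 1)) (Z (i - m - 1))
  have hT1 : ∀ i, i ≤ m → T i = Y i := fun i hi => by simp only [T]; rw [if_pos hi]
  have hT2 : ∀ j, T (m + 1 + j) = graft (ctx a m j) (Z j) := fun j => by
    simp only [T]
    rw [if_neg (by omega), show m + 1 + j - m - 1 = j by omega]
  refine ⟨T, by rw [hT1 0 (Nat.zero_le _), hY0], ?_, ?_, ?_, ?_⟩
  · rw [show 2 * m + 1 = m + 1 + m by omega, hT2, hZm]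
    unfold ctx path
    rw [graft_append, ← graft_append, ← graft_append]
    congr 1
    rw [show m + 1 + m = m + (1 + m) by omega, ← List.range'_append (s := a) (m := m),
      ← List.range'_append (s := a + 1 * m) (m := 1)]
    simp
  · intro i hi
    rcases Nat.lt_or_ge i m with him | him
    · rw [hT1 i him.le, hT1 (i + 1) him]
      exact hYs i him
    · rcases Nat.eq_or_lt_of_le him with him | him
      · subst him
        rw [hT1 m le_rfl, show m + 1 = m + 1 + 0 by omega, hT2, hZ0, hYm]
        refine ⟨[], _, Split.skip _, ?_⟩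
        simp [ctx]
      · obtain ⟨j, rfl⟩ : ∃ j, i = m + 1 + j := ⟨i - m - 1, by omega⟩
        have hj : j < m := by omega
        rw [show m + 1 + j + 1 = m + 1 + (j + 1) by omega, hT2, hT2]
        obtain ⟨L, t, hs, hZ'⟩ := hZs j hj
        refine ⟨_, t, split_ctx a m j hj hs, ?_⟩
        rw [graft_append, hZ', show a + (m + 1 + j) = a + m + 1 + j by omega]
  · intro i hi
    rcases Nat.lt_or_ge m i with him | him
    · obtain ⟨j, rfl⟩ : ∃ j, i = m + 1 + j := ⟨i - m - 1, by omega⟩
      have hj : j ≤ m := by omega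
      rw [hT2]
      intro p hp
      rw [lefts_ctx, Finset.mem_union] at hp
      rcases hp with hp | hp
      · split_ifs at hp
        · rw [Finset.mem_singleton] at hp
          rw [hp]; simp
        · simp at hp
      · have := hZp j hj p hp
        omega
    · rw [hT1 i him]
      exact hYp i him
  · rw [show 2 * m + 1 = m + 1 + m by omega, Finset.sum_range_add, Finset.sum_range_succ]
    have h1 : ∑ i ∈ range m, lcost (T i) (T (i + 1)) =
        ∑ i ∈ range m, lcost (Y i) (Y (i + 1)) := by
      refine Finset.sum_congr rfl fun i hi => ?_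
      rw [Finset.mem_range] at hi
      rw [hT1 i hi.le, hT1 (i + 1) hi]
    have h2 : ∑ j ∈ range m, (lcost (Z j) (Z (j + 1)) + 1) ≤
        ∑ j ∈ range m, lcost (T (m + 1 + j)) (T (m + 1 + j + 1)) := by
      refine Finset.sum_le_sum fun j hj => ?_
      rw [Finset.mem_range] at hj
      rw [show m + 1 + j + 1 = m + 1 + (j + 1) by omega, hT2, hT2]
      exact lcost_ctx a m j hj _ _ (hZp j hj.le) (hZp (j + 1) hj)
    rw [Finset.sum_add_distrib] at h2
    simp only [Finset.sum_const, Finset.card_range, smul_eq_mul, mul_one] at h2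
    rw [h1]
    omega

/-- The recursive bound. -/
lemma good_pow (k : ℕ) : ∀ a, Good a (2 ^ (k + 1) - 1) (k * 2 ^ k - (2 ^ k - 1)) := by
  induction k with
  | zero => exact fun a => good_step 0 0 good_zero a
  | succ k ih =>
    intro a
    have h := good_step _ _ ih a
    have h1 : 2 * (2 ^ (k + 1) - 1) + 1 = 2 ^ (k + 1 + 1) - 1 := by
      have : 1 ≤ 2 ^ (k + 1) := Nat.one_le_two_pow
      rw [pow_succ 2 (k + 1)]; omega
    have h2 : 2 * (k * 2 ^ k - (2 ^ k - 1)) + (2 ^ (k + 1) - 1) ≥
        (k + 1) * 2 ^ (k + 1) - (2 ^ (k + 1) - 1) := by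
      have h3 : 1 ≤ 2 ^ k := Nat.one_le_two_pow
      rcases k with _ | k
      · simp
      · have h4 : 2 ^ (k + 1) ≤ (k + 1) * 2 ^ (k + 1) := Nat.le_mul_of_pos_left _ (by omega)
        have h5 : (k + 1 + 1) * 2 ^ (k + 1 + 1) = 2 * ((k + 1) * 2 ^ (k + 1)) +
            2 * 2 ^ (k + 1) := by ring
        have h6 : 2 ^ (k + 1 + 1) = 2 * 2 ^ (k + 1) := by ring
        rw [h5, h6]
        omega
    rw [h1] at h
    obtain ⟨Y, a1, a2, a3, a4, a5⟩ := h
    exact ⟨Y, a1, a2, a3, a4, le_trans h2 a5⟩


/-- A cheap flarb used for padding: only the root is selected. -/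
def pad (n : ℕ) : BT → BT
  | nil => node nil n nil
  | node l x r => node l x (node r n nil)

lemma isFlarb_pad (n : ℕ) (T : BT) : IsFlarb n T (pad n T) := by
  cases T with
  | nil => exact ⟨[], nil, Split.skip _, fun h => absurd rfl h, rfl⟩
  | node l x r =>
    exact ⟨[(l, x)], r, Split.take (L₁ := []) (L₂ := []) (Split.skip _) (Split.skip _),
      fun _ => by simp, rfl⟩

/-- Padding a sequence. -/
def padSeq (T : BT) (b : ℕ) : ℕ → BT
  | 0 => T
  | j + 1 => pad (b + j) (padSeq T b j)

/-- **Logarithmic lower bound for flarbs.** For every `n ≥ 64` there is a sequence of `n` flarbs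
from the empty tree (the `i`-th new node is named `i`) whose total number of pointer changes is at
least `n log n / 8`. -/
theorem result (n : ℕ) (hn : 64 ≤ n) :
    ∃ T : ℕ → BT, T 0 = nil ∧ (∀ i < n, IsFlarb i (T i) (T (i + 1))) ∧
      (n : ℝ) * Real.log n / 8 ≤ ∑ i ∈ range n, (cost (T i) (T (i + 1)) : ℝ) := by
  -- choose the scale
  obtain ⟨k, hk⟩ : ∃ k, Nat.log 2 n = k + 1 := by
    have : 0 < Nat.log 2 n := Nat.log_pos (by norm_num) (by omega)
    exact ⟨Nat.log 2 n - 1, by omega⟩
  have hk1 : 2 ^ (k + 1) ≤ n := by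
    rw [← hk]; exact Nat.pow_log_le_self 2 (by omega)
  have hk2 : n < 2 ^ (k + 2) := by
    have := Nat.lt_pow_succ_log_self (by norm_num : 1 < 2) n
    rwa [hk] at this
  have hk5 : 5 ≤ k := by
    have : Nat.log 2 64 ≤ Nat.log 2 n := Nat.log_mono_right hn
    have h64 : Nat.log 2 64 = 6 := by
      rw [show (64 : ℕ) = 2 ^ 6 by norm_num]; exact Nat.log_pow (by norm_num) 6
    omega
  obtain ⟨Y, hY0, hYm, hYs, hYp, hYc⟩ := good_pow k 1
  set m := 2 ^ (k + 1) - 1 with hm
  have hpow : 1 ≤ 2 ^ (k + 1) := Nat.one_le_two_pow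
  have hmn : m + 1 ≤ n := by omega
  let T : ℕ → BT := fun i => if i = 0 then nil else if i ≤ m + 1 then node nil 0 (Y (i - 1))
    else padSeq (node nil 0 (Y m)) (m + 1) (i - (m + 1))
  have hT0 : T 0 = nil := by simp [T]
  have hT1 : ∀ i, i ≤ m → T (i + 1) = node nil 0 (Y i) := fun i hi => by
    simp only [T]
    rw [if_neg (by omega), if_pos (by omega), Nat.add_sub_cancel]
  have hT2 : ∀ j, T (m + 1 + j) = padSeq (node nil 0 (Y m)) (m + 1) j := fun j => by
    rcases Nat.eq_zero_or_pos j with rfl | hj
    · rw [Nat.add_zero, hT1 m le_rfl]; rfl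
    · simp only [T]
      rw [if_neg (by omega), if_neg (by omega), Nat.add_sub_cancel_left]
  refine ⟨T, hT0, ?_, ?_⟩
  · intro i hi
    rcases Nat.lt_or_ge i (m + 1) with him | him
    · rcases Nat.eq_zero_or_pos i with rfl | hi0
      · rw [hT0, show (0 : ℕ) + 1 = 0 + 1 by rfl, hT1 0 (Nat.zero_le _), hY0]
        exact ⟨[], nil, Split.skip _, fun h => absurd rfl h, rfl⟩
      · obtain ⟨j, rfl⟩ : ∃ j, i = j + 1 := ⟨i - 1, by omega⟩
        rw [hT1 j (by omega), hT1 (j + 1) (by omega)]
        obtain ⟨L, t, hs, hY'⟩ := hYs j (by omega)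
        refine ⟨(nil, 0) :: L, t, Split.take (L₁ := []) (Split.skip nil) hs,
          fun _ => by simp, ?_⟩
        rw [graft_cons, hY', Nat.add_comm 1 j]
    · obtain ⟨j, rfl⟩ : ∃ j, i = m + 1 + j := ⟨i - (m + 1), by omega⟩
      rw [hT2, show m + 1 + j + 1 = m + 1 + (j + 1) by omega, hT2]
      exact isFlarb_pad _ _
  · -- the cost
    have h1 : k * 2 ^ k - (2 ^ k - 1) ≤ ∑ i ∈ range n, cost (T i) (T (i + 1)) := by
      calc k * 2 ^ k - (2 ^ k - 1) ≤ ∑ i ∈ range m, lcost (Y i) (Y (i + 1)) := hYc
        _ ≤ ∑ i ∈ range m, cost (T (i + 1)) (T (i + 1 + 1)) := by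
            refine Finset.sum_le_sum fun i hi => ?_
            rw [Finset.mem_range] at hi
            rw [hT1 i hi.le, hT1 (i + 1) hi]
            refine le_trans (le_of_eq ?_) (lcost_le_cost _ _)
            simp [lcost, lefts, BT.root]
        _ ≤ ∑ i ∈ range (m + 1), cost (T i) (T (i + 1)) := by
            rw [Finset.sum_range_succ']
            exact Nat.le_add_right _ _
        _ ≤ ∑ i ∈ range n, cost (T i) (T (i + 1)) :=
            Finset.sum_le_sum_of_subset (fun i hi => by
              rw [Finset.mem_range] at hi ⊢; omega)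
    have h2 : ((k : ℝ) - 1) * 2 ^ k ≤ ∑ i ∈ range n, (cost (T i) (T (i + 1)) : ℝ) := by
      have h3 : k * 2 ^ k ≤ (∑ i ∈ range n, cost (T i) (T (i + 1))) + 2 ^ k := by
        have : 1 ≤ 2 ^ k := Nat.one_le_two_pow
        omega
      have h4 : ((k * 2 ^ k : ℕ) : ℝ) ≤
          (((∑ i ∈ range n, cost (T i) (T (i + 1))) + 2 ^ k : ℕ) : ℝ) := by exact_mod_cast h3
      push_cast at h4
      linarith
    refine le_trans ?_ h2
    have hn0 : (0 : ℝ) < n := by exact_mod_cast (by omega : 0 < n)
    have hnk : (n : ℝ) ≤ 4 * 2 ^ k := by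
      have : n ≤ 4 * 2 ^ k := by
        have : 2 ^ (k + 2) = 4 * 2 ^ k := by ring
        omega
      exact_mod_cast this
    have hlog : Real.log n ≤ ((k : ℝ) + 2) * 0.7 := by
      calc Real.log n ≤ Real.log ((2 : ℝ) ^ (k + 2)) := by
            refine Real.log_le_log hn0 ?_
            exact_mod_cast hk2.le
        _ = ((k : ℝ) + 2) * Real.log 2 := by rw [Real.log_pow]; push_cast; ring
        _ ≤ ((k : ℝ) + 2) * 0.7 := by
            have := Real.log_two_lt_d9
            have hk0 : (0 : ℝ) ≤ (k : ℝ) + 2 := by positivity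
            exact mul_le_mul_of_nonneg_left (by linarith) hk0
    have hlog0 : 0 ≤ Real.log n := Real.log_natCast_nonneg n
    have hk5' : (5 : ℝ) ≤ k := by exact_mod_cast hk5
    have h2k : (0 : ℝ) < 2 ^ k := by positivity
    calc (n : ℝ) * Real.log n / 8 ≤ (4 * 2 ^ k) * (((k : ℝ) + 2) * 0.7) / 8 := by gcongr
      _ = (0.35 * ((k : ℝ) + 2)) * 2 ^ k := by ring
      _ ≤ ((k : ℝ) - 1) * 2 ^ k := by
          refine mul_le_mul_of_nonneg_right ?_ h2k.le
          linarith

end Pool.Agent.Results.MP_5c307f_lc.LogLowerBound
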